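import Pool.Agent.Q164.MSO.Forward
import Pool.Agent.Q164.MSO.Backward

/-!
# Lattice path matroids are definable in monadic second-order logic

There is a sentence of `MS₀` which holds in a finite matroid exactly when the matroid is a lattice
path matroid.
-/

set_option autoImplicit false

namespace Pool.Agent.Results.MP_b5ca43_co.Definable

open Set Pool.Agent.Q164.MSO

/-- The height, after `i` steps, of the lattice path with `n` steps whose North steps are the
members of `R` (steps are numbered `0, ..., n - 1`). -/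
def height {n : ℕ} (R : Finset (Fin n)) (i : ℕ) : ℕ := (R.filter (fun j : Fin n => (j : ℕ) < i)).card

/-- The path `R` is never above the path `S`. -/
def Below {n : ℕ} (R S : Finset (Fin n)) : Prop := ∀ i, height R i ≤ height S i

/-- `M` is isomorphic to the lattice path matroid `M[P,Q]`, for some paths `P, Q` with the same ends
and `P` never above `Q`. A path with `n` steps is given by the set of its North steps; the
isomorphism is the bijection `e` from the set of steps to the ground set. -/
def IsLatticePathMatroid {α : Type} (M : Matroid α) : Prop :=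
  ∃ (n : ℕ) (P Q : Finset (Fin n)), P.card = Q.card ∧ Below P Q ∧
    ∃ e : Fin n → α, Function.Injective e ∧ range e = M.E ∧
      ∀ R : Finset (Fin n), M.IsBase (e '' R) ↔ (R.card = P.card ∧ Below P R ∧ Below R Q)

/-- The sentence `φ` holds in the matroid `M`. -/
def Models {α : Type} (M : Matroid α) (φ : Fml 0) : Prop := Sat M φ Fin.elim0

section conv
variable {α : Type} {n : ℕ} {e : Fin n → α} {E : Set α} {κ : α → ℤ}

/-- the first `i` elements -/
def ini (e : Fin n → α) (i : ℕ) : Set α := e '' {j | (j : ℕ) < i}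

lemma low_ini (hE : range e = E) (hκ : StrictMono (fun i => κ (e i))) (i : ℕ) :
    Low κ E (ini e i) := by
  refine ⟨?_, ?_⟩
  · rw [← hE]; exact image_subset_range _ _
  · rintro x ⟨j, hj, rfl⟩ z hz hz'
    rw [← hE] at hz
    obtain ⟨k, rfl⟩ := hz
    have : ¬ (k : ℕ) < i := fun h => hz' ⟨k, h, rfl⟩
    apply hκ
    have hj : (j : ℕ) < i := hj
    exact Fin.lt_def.2 (by omega)

lemma eq_ini [Finite α] (hE : range e = E) (hκ : StrictMono (fun i => κ (e i))) {I : Set α}
    (hI : Low κ E I) : ∃ i, I = ini e i := by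
  by_cases hne : I.Nonempty
  · obtain ⟨x, hx, hIx⟩ := exists_max_low hI hne
    have hxE := hI.1 hx
    rw [← hE] at hxE
    obtain ⟨j, rfl⟩ := hxE
    refine ⟨j + 1, ?_⟩
    rw [hIx]
    ext y
    constructor
    · rintro ⟨hy, hyj⟩
      rw [← hE] at hy
      obtain ⟨k, rfl⟩ := hy
      refine ⟨k, ?_, rfl⟩
      have := hκ.le_iff_le.1 hyj
      have := Fin.le_def.1 this
      show (k : ℕ) < j + 1
      omega
    · rintro ⟨k, hk, rfl⟩
      refine ⟨by rw [← hE]; exact mem_range_self _, ?_⟩
      apply hκ.monotone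
      have hk : (k : ℕ) < j + 1 := hk
      exact Fin.le_def.2 (by omega)
  · refine ⟨0, ?_⟩
    rw [not_nonempty_iff_eq_empty.1 hne]
    simp [ini]

lemma card_ini (he : Function.Injective e) (R : Finset (Fin n)) (i : ℕ) :
    (e '' R ∩ ini e i).ncard = height R i := by
  unfold ini height
  rw [← image_inter he, ncard_image_of_injective _ he, ← ncard_coe_finset]
  congr 1
  ext j
  simp

lemma card_img (he : Function.Injective e) (R : Finset (Fin n)) :
    (e '' R).ncard = R.card := by
  rw [ncard_image_of_injective _ he, ncard_coe_finset]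

lemma exists_img (hE : range e = E) {B : Set α} (hB : B ⊆ E) :
    ∃ R : Finset (Fin n), e '' R = B := by
  classical
  refine ⟨Finset.univ.filter (fun i => e i ∈ B), ?_⟩
  ext y
  constructor
  · rintro ⟨i, hi, rfl⟩
    simpa using hi
  · intro hy
    have := hB hy
    rw [← hE] at this
    obtain ⟨i, rfl⟩ := this
    exact ⟨i, by simpa using hy, rfl⟩

lemma below_iff [Finite α] (he : Function.Injective e) (hE : range e = E)
    (hκ : StrictMono (fun i => κ (e i))) (R S : Finset (Fin n)) :
    Below R S ↔ ∀ I, Low κ E I → (e '' R ∩ I).ncard ≤ (e '' S ∩ I).ncard := by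
  constructor
  · intro h I hI
    obtain ⟨i, rfl⟩ := eq_ini hE hκ hI
    rw [card_ini he, card_ini he]
    exact h i
  · intro h i
    have := h _ (low_ini hE hκ i)
    rwa [card_ini he, card_ini he] at this

end conv

theorem lpm_of_LP {α : Type} [Finite α] {M : Matroid α} {κ : α → ℤ} {P Q : Set α}
    (h : LP M κ P Q) : IsLatticePathMatroid M := by
  classical
  have hfin : (κ '' M.E).Finite := toFinite _
  set S : Finset ℤ := hfin.toFinset with hS
  have hmem : ∀ z, z ∈ S ↔ ∃ x ∈ M.E, κ x = z := by
    intro z; rw [hS, Set.Finite.mem_toFinset]; rfl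
  have hf : ∀ i : Fin S.card, ∃ x ∈ M.E, κ x = S.orderEmbOfFin rfl i := fun i =>
    (hmem _).1 (S.orderEmbOfFin_mem rfl i)
  choose e heE heκ using hf
  have hκ : StrictMono (fun i => κ (e i)) := by
    intro i j hij
    simp only [heκ]
    exact (S.orderEmbOfFin rfl).strictMono hij
  have he : Function.Injective e := by
    intro i j hij
    exact hκ.injective (by simp only [hij])
  have hE : range e = M.E := by
    ext x
    constructor
    · rintro ⟨i, rfl⟩; exact heE i
    · intro hx
      have h1 : κ x ∈ S := (hmem _).2 ⟨x, hx, rfl⟩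
      have h2 : κ x ∈ range (S.orderEmbOfFin rfl) := by
        rw [Finset.range_orderEmbOfFin]; exact h1
      obtain ⟨i, hi⟩ := h2
      refine ⟨i, h.inj (heE i) hx ?_⟩
      rw [heκ, hi]
  obtain ⟨P', hP'⟩ := exists_img hE h.subP
  obtain ⟨Q', hQ'⟩ := exists_img hE h.subQ
  have hPQ : P'.card = Q'.card := by
    have := h.card
    rwa [← hP', ← hQ', card_img he, card_img he] at this
  refine ⟨S.card, P', Q', hPQ, ?_, e, he, hE, ?_⟩
  · rw [below_iff he hE hκ, hP', hQ']
    exact h.le
  · intro R
    have hR : e '' (R : Set (Fin S.card)) ⊆ M.E := by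
      rw [← hE]; exact image_subset_range _ _
    rw [h.base _ hR, below_iff he hE hκ, below_iff he hE hκ, hP', hQ', card_img he, hPQ,
      ← card_img he Q', hQ']
    refine and_congr_right fun _ => ?_
    constructor
    · intro h1
      exact ⟨fun I hI => (h1 I hI).1, fun I hI => (h1 I hI).2⟩
    · rintro ⟨h1, h2⟩ I hI
      exact ⟨h1 I hI, h2 I hI⟩

theorem LP_of_lpm {α : Type} [Finite α] {M : Matroid α} (h : IsLatticePathMatroid M) :
    ∃ κ P Q, LP M κ P Q := by
  classical
  obtain ⟨n, P, Q, hPQ, hbelow, e, he, hE, hbase⟩ := h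
  set κ : α → ℤ := fun x => if hx : ∃ i, e i = x then ((hx.choose : ℕ) : ℤ) else 0 with hκdef
  have hκe : ∀ i, κ (e i) = (i : ℕ) := by
    intro i
    have hx : ∃ j, e j = e i := ⟨i, rfl⟩
    have h1 : κ (e i) = ((hx.choose : ℕ) : ℤ) := dif_pos hx
    rw [h1, he hx.choose_spec]
  have hκ : StrictMono (fun i => κ (e i)) := by
    intro i j hij
    simp only [hκe]
    exact_mod_cast hij
  refine ⟨κ, e '' P, e '' Q, ?_, ?_, ?_, ?_, ?_, ?_⟩
  · intro x hx y hy hxy
    rw [← hE] at hx hy
    obtain ⟨i, rfl⟩ := hx
    obtain ⟨j, rfl⟩ := hy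
    rw [hκ.injective hxy]
  · rw [← hE]; exact image_subset_range _ _
  · rw [← hE]; exact image_subset_range _ _
  · rw [card_img he, card_img he, hPQ]
  · exact (below_iff he hE hκ P Q).1 hbelow
  · intro B hB
    obtain ⟨R, rfl⟩ := exists_img hE hB
    rw [hbase, below_iff he hE hκ, below_iff he hE hκ, card_img he, card_img he, hPQ]
    refine and_congr_right fun _ => ?_
    constructor
    · rintro ⟨h1, h2⟩ I hI
      exact ⟨h1 I hI, h2 I hI⟩
    · intro h1
      exact ⟨fun I hI => (h1 I hI).1, fun I hI => (h1 I hI).2⟩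

/-- There is a sentence of `MS₀` that holds in a finite matroid exactly when the matroid is a
lattice path matroid. -/
theorem result : ∃ φ : Fml 0, ∀ (α : Type) [Finite α] (M : Matroid α),
    Models M φ ↔ IsLatticePathMatroid M := by
  obtain ⟨φ, hφ⟩ := def_Nice
  refine ⟨φ, fun α _ M => (hφ α M _ (fun i => i.elim0)).trans ?_⟩
  constructor
  · intro h
    obtain ⟨κ, P, Q, hLP⟩ := h.exists_LP
    exact lpm_of_LP hLP
  · intro h
    obtain ⟨κ, P, Q, hLP⟩ := LP_of_lpm h
    exact hLP.nice

end Pool.Agent.Results.MP_b5ca43_co.Definable
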